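import Pool.Agent.K9h57.FA.Gen

/-!
# Orientable fillings of the circle: a fast test of the numerical condition

One pass through the sectors, with integers only. The rows of coefficients are natural numbers, read
digit by digit; the integrals over the sectors are given with an error of at most `10 ^ (-24)`.
-/

set_option autoImplicit false

open MeasureTheory Metric Set Filter Topology InnerProductGeometry

namespace Pool.Agent.K9h57.FA

open Pool.Agent.H241R3.FV Pool.Agent.N526.CP Pool.Agent.N979.P1 Pool.Agent.N954.P1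

/-- the last digit of a row in the base `2 ^ 64`, minus `2 ^ 63` -/
def dg (n : ℕ) : ℤ := ((n % 18446744073709551616 : ℕ) : ℤ) - 9223372036854775808

/-- the state of the computation: rest of the rows, coefficients, sums, errors -/
structure St where
  c : ℕ
  v : ℕ
  w : ℕ
  A : ℤ
  B : ℤ
  P : ℤ
  Q : ℤ
  x0 : ℤ
  x1 : ℤ
  x2 : ℤ
  y0 : ℤ
  y1 : ℤ
  y2 : ℤ
  e0 : ℕ
  e1 : ℕ
  e2 : ℕ
  f1 : ℕ
  f2 : ℕ
  q : ℕ

/-- one sector; `r` contains the slope of the ray and the integrals of `cos²`, `sin²`, `cos · sin` -/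
def stp (s : St) (r : ℕ × ℕ × ℕ × ℕ) : St :=
  let c := dg s.c
  let v := dg s.v
  let w := s.w % 281474976710656 + 1
  let wi : ℤ := (w : ℤ)
  let T : ℤ := (r.1 : ℤ)
  let C : ℤ := (r.2.1 : ℤ)
  let M : ℤ := (r.2.2.1 : ℤ)
  let K : ℤ := (r.2.2.2 : ℤ)
  let U := s.P * K - s.Q * C
  let V := s.A * K + s.B * M
  let g := s.P.natAbs + s.Q.natAbs
  let h := s.A.natAbs + s.B.natAbs
  { c := s.c / 18446744073709551616
    v := s.v / 18446744073709551616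
    w := s.w / 281474976710656
    A := s.A + c * T
    B := s.B - c * 10000000
    P := s.P + v * T
    Q := s.Q - v * 10000000
    x0 := s.x0 + wi * C
    x1 := s.x1 + wi * U
    x2 := s.x2 + wi * (s.P * (s.P * M - s.Q * K) - s.Q * U)
    y0 := s.y0 + wi * (s.A * (s.A * C + s.B * K) + s.B * V)
    y1 := s.y1 + wi * V
    y2 := s.y2 + wi * M
    e0 := s.e0 + w
    e1 := s.e1 + w * g
    e2 := s.e2 + w * (g * g)
    f1 := s.f1 + w * h
    f2 := s.f2 + w * (h * h)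
    q := s.q + (1000000000000 * (r.2.1 + r.2.2.1 + 2) / (4 * w) + 1) }

/-- the states -/
def sq (tb : ℕ → ℕ × ℕ × ℕ × ℕ) (s : St) : ℕ → St
  | 0 => s
  | n + 1 => stp (sq tb s n) (tb n)

theorem sq_congr {tb tb' : ℕ → ℕ × ℕ × ℕ × ℕ} (s : St) :
    ∀ n : ℕ, (∀ i, i < n → tb i = tb' i) → sq tb s n = sq tb' s n
  | 0, _ => rfl
  | n + 1, h => by
    show stp (sq tb s n) (tb n) = stp (sq tb' s n) (tb' n)
    rw [sq_congr s n fun i hi => h i (by omega), h n (by omega)]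

theorem foldl_sq (tb : List (ℕ × ℕ × ℕ × ℕ)) (s : St) :
    tb.foldl stp s = sq (fun i => tb.getD i (0, 0, 0, 0)) s tb.length := by
  induction tb using List.reverseRecOn with
  | nil => rfl
  | append_singleton tb a ih =>
    rw [List.foldl_append, ih, List.length_append]
    show stp (sq _ s tb.length) a = stp (sq _ s tb.length) _
    rw [sq_congr (tb := fun i => (tb ++ [a]).getD i (0, 0, 0, 0))
      (tb' := fun i => tb.getD i (0, 0, 0, 0)) s tb.length fun i hi => by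
        simp [List.getD_eq_getElem?_getD, List.getElem?_append_left hi]]
    simp [List.getD_eq_getElem?_getD]

section
variable (tb : ℕ → ℕ × ℕ × ℕ × ℕ) (s : St)

theorem sq_c : ∀ n : ℕ, (sq tb s n).c = s.c / 2 ^ (64 * n)
  | 0 => by simp [sq]
  | n + 1 => by
    show (sq tb s n).c / 18446744073709551616 = _
    rw [sq_c n, Nat.div_div_eq_div_mul, show 64 * (n + 1) = 64 * n + 64 by ring, pow_add,
      show (2 : ℕ) ^ 64 = 18446744073709551616 by norm_num]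

theorem sq_v : ∀ n : ℕ, (sq tb s n).v = s.v / 2 ^ (64 * n)
  | 0 => by simp [sq]
  | n + 1 => by
    show (sq tb s n).v / 18446744073709551616 = _
    rw [sq_v n, Nat.div_div_eq_div_mul, show 64 * (n + 1) = 64 * n + 64 by ring, pow_add,
      show (2 : ℕ) ^ 64 = 18446744073709551616 by norm_num]

/-- the weights -/
def W (i : ℕ) : ℕ := (sq tb s i).w % 281474976710656 + 1

theorem acc (x X E : ℕ → ℝ) (hX : X 0 = 0) (hE : E 0 = 0) :
    ∀ n : ℕ, (∀ i, i < n → |x i - (X (i + 1) - X i)| ≤ E (i + 1) - E i) →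
      |∑ i ∈ Finset.range n, x i - X n| ≤ E n
  | 0, _ => by simp [hX, hE]
  | n + 1, h => by
    have h1 := acc x X E hX hE n fun i hi => h i (by omega)
    have h2 := h n (by omega)
    rw [Finset.sum_range_succ]
    rw [abs_le] at h1 h2 ⊢
    constructor <;> linarith [h1.1, h1.2, h2.1, h2.2]

theorem lin3 {p q r a b c : ℝ} (ha : |a| ≤ 1) (hb : |b| ≤ 1) (hc : |c| ≤ 1) :
    |p * a + q * b + r * c| ≤ |p| + |q| + |r| := by
  refine (abs_add_three _ _ _).trans ?_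
  rw [abs_mul, abs_mul, abs_mul]
  have h1 := mul_le_mul_of_nonneg_left ha (abs_nonneg p)
  have h2 := mul_le_mul_of_nonneg_left hb (abs_nonneg q)
  have h3 := mul_le_mul_of_nonneg_left hc (abs_nonneg r)
  linarith

/-- the enclosures of the integrals over the sectors -/
structure Enc (n : ℕ) (xC xM xK : ℕ → ℝ) : Prop where
  c : ∀ i, i < n → |xC i - ((tb i).2.1 : ℝ)| ≤ 1
  m : ∀ i, i < n → |xM i - ((tb i).2.2.1 : ℝ)| ≤ 1
  k : ∀ i, i < n → |xK i - ((tb i).2.2.2 : ℝ)| ≤ 1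

/-- the sums at the beginning are zero -/
structure Zer : Prop where
  x0 : s.x0 = 0
  x1 : s.x1 = 0
  x2 : s.x2 = 0
  y0 : s.y0 = 0
  y1 : s.y1 = 0
  y2 : s.y2 = 0
  e0 : s.e0 = 0
  e1 : s.e1 = 0
  e2 : s.e2 = 0
  f1 : s.f1 = 0
  f2 : s.f2 = 0
  q : s.q = 0

variable {tb s} {xC xM xK : ℕ → ℝ} {n : ℕ}

theorem wpos (i : ℕ) : (0 : ℝ) ≤ (W tb s i : ℝ) := Nat.cast_nonneg _

theorem natAbs_cast (z : ℤ) : ((z.natAbs : ℕ) : ℝ) = |(z : ℝ)| := by
  rw [Nat.cast_natAbs, Int.cast_abs]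

theorem sum_x0 (h : Enc tb n xC xM xK) (z : Zer s) :
    |∑ i ∈ Finset.range n, (W tb s i : ℝ) * xC i - ((sq tb s n).x0 : ℝ)| ≤
      ((sq tb s n).e0 : ℝ) := by
  refine acc _ (fun i => ((sq tb s i).x0 : ℝ)) (fun i => ((sq tb s i).e0 : ℝ))
    (by simp [sq, z.x0]) (by simp [sq, z.e0]) n fun i hi => ?_
  have e1 : ((sq tb s (i + 1)).x0 : ℝ) - ((sq tb s i).x0 : ℝ) =
      (W tb s i : ℝ) * ((tb i).2.1 : ℝ) := by
    have : (sq tb s (i + 1)).x0 = (sq tb s i).x0 + ((W tb s i : ℕ) : ℤ) * ((tb i).2.1 : ℤ) := rfl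
    rw [this]; push_cast; ring
  have e2 : ((sq tb s (i + 1)).e0 : ℝ) - ((sq tb s i).e0 : ℝ) = (W tb s i : ℝ) := by
    have : (sq tb s (i + 1)).e0 = (sq tb s i).e0 + W tb s i := rfl
    rw [this]; push_cast; ring
  show |_ - (((sq tb s (i + 1)).x0 : ℝ) - ((sq tb s i).x0 : ℝ))| ≤
    ((sq tb s (i + 1)).e0 : ℝ) - ((sq tb s i).e0 : ℝ)
  rw [e1, e2, ← mul_sub, abs_mul, abs_of_nonneg (wpos i)]
  exact mul_le_of_le_one_right (wpos i) (h.c i hi)

theorem sum_y2 (h : Enc tb n xC xM xK) (z : Zer s) :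
    |∑ i ∈ Finset.range n, (W tb s i : ℝ) * xM i - ((sq tb s n).y2 : ℝ)| ≤
      ((sq tb s n).e0 : ℝ) := by
  refine acc _ (fun i => ((sq tb s i).y2 : ℝ)) (fun i => ((sq tb s i).e0 : ℝ))
    (by simp [sq, z.y2]) (by simp [sq, z.e0]) n fun i hi => ?_
  have e1 : ((sq tb s (i + 1)).y2 : ℝ) - ((sq tb s i).y2 : ℝ) =
      (W tb s i : ℝ) * ((tb i).2.2.1 : ℝ) := by
    have : (sq tb s (i + 1)).y2 = (sq tb s i).y2 + ((W tb s i : ℕ) : ℤ) * ((tb i).2.2.1 : ℤ) := rfl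
    rw [this]; push_cast; ring
  have e2 : ((sq tb s (i + 1)).e0 : ℝ) - ((sq tb s i).e0 : ℝ) = (W tb s i : ℝ) := by
    have : (sq tb s (i + 1)).e0 = (sq tb s i).e0 + W tb s i := rfl
    rw [this]; push_cast; ring
  show |_ - (((sq tb s (i + 1)).y2 : ℝ) - ((sq tb s i).y2 : ℝ))| ≤
    ((sq tb s (i + 1)).e0 : ℝ) - ((sq tb s i).e0 : ℝ)
  rw [e1, e2, ← mul_sub, abs_mul, abs_of_nonneg (wpos i)]
  exact mul_le_of_le_one_right (wpos i) (h.m i hi)

theorem sum_x1 (h : Enc tb n xC xM xK) (z : Zer s) :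
    |∑ i ∈ Finset.range n, (W tb s i : ℝ) * (((sq tb s i).P : ℝ) * xK i -
      ((sq tb s i).Q : ℝ) * xC i) - ((sq tb s n).x1 : ℝ)| ≤ ((sq tb s n).e1 : ℝ) := by
  refine acc _ (fun i => ((sq tb s i).x1 : ℝ)) (fun i => ((sq tb s i).e1 : ℝ))
    (by simp [sq, z.x1]) (by simp [sq, z.e1]) n fun i hi => ?_
  have e1 : ((sq tb s (i + 1)).x1 : ℝ) - ((sq tb s i).x1 : ℝ) =
      (W tb s i : ℝ) * (((sq tb s i).P : ℝ) * ((tb i).2.2.2 : ℝ) -
        ((sq tb s i).Q : ℝ) * ((tb i).2.1 : ℝ)) := by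
    have : (sq tb s (i + 1)).x1 = (sq tb s i).x1 + ((W tb s i : ℕ) : ℤ) *
      ((sq tb s i).P * ((tb i).2.2.2 : ℤ) - (sq tb s i).Q * ((tb i).2.1 : ℤ)) := rfl
    rw [this]; push_cast; ring
  have e2 : ((sq tb s (i + 1)).e1 : ℝ) - ((sq tb s i).e1 : ℝ) = (W tb s i : ℝ) *
      (|((sq tb s i).P : ℝ)| + |((sq tb s i).Q : ℝ)|) := by
    have : (sq tb s (i + 1)).e1 = (sq tb s i).e1 + W tb s i *
      ((sq tb s i).P.natAbs + (sq tb s i).Q.natAbs) := rfl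
    rw [this, ← natAbs_cast, ← natAbs_cast]; push_cast; ring
  show |_ - (((sq tb s (i + 1)).x1 : ℝ) - ((sq tb s i).x1 : ℝ))| ≤
    ((sq tb s (i + 1)).e1 : ℝ) - ((sq tb s i).e1 : ℝ)
  rw [e1, e2, ← mul_sub, abs_mul, abs_of_nonneg (wpos i)]
  refine mul_le_mul_of_nonneg_left ?_ (wpos i)
  have h3 := lin3 (p := ((sq tb s i).P : ℝ)) (q := -((sq tb s i).Q : ℝ)) (r := 0)
    (h.k i hi) (h.c i hi) (h.c i hi)
  rw [abs_neg, abs_zero, add_zero] at h3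
  refine le_trans (le_of_eq ?_) h3
  congr 1
  ring

theorem sum_y1 (h : Enc tb n xC xM xK) (z : Zer s) :
    |∑ i ∈ Finset.range n, (W tb s i : ℝ) * (((sq tb s i).A : ℝ) * xK i +
      ((sq tb s i).B : ℝ) * xM i) - ((sq tb s n).y1 : ℝ)| ≤ ((sq tb s n).f1 : ℝ) := by
  refine acc _ (fun i => ((sq tb s i).y1 : ℝ)) (fun i => ((sq tb s i).f1 : ℝ))
    (by simp [sq, z.y1]) (by simp [sq, z.f1]) n fun i hi => ?_
  have e1 : ((sq tb s (i + 1)).y1 : ℝ) - ((sq tb s i).y1 : ℝ) =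
      (W tb s i : ℝ) * (((sq tb s i).A : ℝ) * ((tb i).2.2.2 : ℝ) +
        ((sq tb s i).B : ℝ) * ((tb i).2.2.1 : ℝ)) := by
    have : (sq tb s (i + 1)).y1 = (sq tb s i).y1 + ((W tb s i : ℕ) : ℤ) *
      ((sq tb s i).A * ((tb i).2.2.2 : ℤ) + (sq tb s i).B * ((tb i).2.2.1 : ℤ)) := rfl
    rw [this]; push_cast; ring
  have e2 : ((sq tb s (i + 1)).f1 : ℝ) - ((sq tb s i).f1 : ℝ) = (W tb s i : ℝ) *
      (|((sq tb s i).A : ℝ)| + |((sq tb s i).B : ℝ)|) := by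
    have : (sq tb s (i + 1)).f1 = (sq tb s i).f1 + W tb s i *
      ((sq tb s i).A.natAbs + (sq tb s i).B.natAbs) := rfl
    rw [this, ← natAbs_cast, ← natAbs_cast]; push_cast; ring
  show |_ - (((sq tb s (i + 1)).y1 : ℝ) - ((sq tb s i).y1 : ℝ))| ≤
    ((sq tb s (i + 1)).f1 : ℝ) - ((sq tb s i).f1 : ℝ)
  rw [e1, e2, ← mul_sub, abs_mul, abs_of_nonneg (wpos i)]
  refine mul_le_mul_of_nonneg_left ?_ (wpos i)
  have h3 := lin3 (p := ((sq tb s i).A : ℝ)) (q := ((sq tb s i).B : ℝ)) (r := 0)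
    (h.k i hi) (h.m i hi) (h.c i hi)
  rw [abs_zero, add_zero] at h3
  refine le_trans (le_of_eq ?_) h3
  congr 1
  ring

theorem sum_x2 (h : Enc tb n xC xM xK) (z : Zer s) :
    |∑ i ∈ Finset.range n, (W tb s i : ℝ) * (((sq tb s i).P : ℝ) ^ 2 * xM i -
      2 * ((sq tb s i).P : ℝ) * ((sq tb s i).Q : ℝ) * xK i + ((sq tb s i).Q : ℝ) ^ 2 * xC i) -
      ((sq tb s n).x2 : ℝ)| ≤ ((sq tb s n).e2 : ℝ) := by
  refine acc _ (fun i => ((sq tb s i).x2 : ℝ)) (fun i => ((sq tb s i).e2 : ℝ))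
    (by simp [sq, z.x2]) (by simp [sq, z.e2]) n fun i hi => ?_
  have e1 : ((sq tb s (i + 1)).x2 : ℝ) - ((sq tb s i).x2 : ℝ) =
      (W tb s i : ℝ) * (((sq tb s i).P : ℝ) ^ 2 * ((tb i).2.2.1 : ℝ) -
        2 * ((sq tb s i).P : ℝ) * ((sq tb s i).Q : ℝ) * ((tb i).2.2.2 : ℝ) +
        ((sq tb s i).Q : ℝ) ^ 2 * ((tb i).2.1 : ℝ)) := by
    have : (sq tb s (i + 1)).x2 = (sq tb s i).x2 + ((W tb s i : ℕ) : ℤ) *
      ((sq tb s i).P * ((sq tb s i).P * ((tb i).2.2.1 : ℤ) - (sq tb s i).Q * ((tb i).2.2.2 : ℤ)) -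
        (sq tb s i).Q * ((sq tb s i).P * ((tb i).2.2.2 : ℤ) -
          (sq tb s i).Q * ((tb i).2.1 : ℤ))) := rfl
    rw [this]; push_cast; ring
  have e2 : ((sq tb s (i + 1)).e2 : ℝ) - ((sq tb s i).e2 : ℝ) = (W tb s i : ℝ) *
      (|((sq tb s i).P : ℝ)| + |((sq tb s i).Q : ℝ)|) ^ 2 := by
    have : (sq tb s (i + 1)).e2 = (sq tb s i).e2 + W tb s i *
      (((sq tb s i).P.natAbs + (sq tb s i).Q.natAbs) *
        ((sq tb s i).P.natAbs + (sq tb s i).Q.natAbs)) := rfl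
    rw [this, ← natAbs_cast, ← natAbs_cast]; push_cast; ring
  show |_ - (((sq tb s (i + 1)).x2 : ℝ) - ((sq tb s i).x2 : ℝ))| ≤
    ((sq tb s (i + 1)).e2 : ℝ) - ((sq tb s i).e2 : ℝ)
  rw [e1, e2, ← mul_sub, abs_mul, abs_of_nonneg (wpos i)]
  refine mul_le_mul_of_nonneg_left ?_ (wpos i)
  have h3 := lin3 (p := ((sq tb s i).P : ℝ) ^ 2)
    (q := -(2 * ((sq tb s i).P : ℝ) * ((sq tb s i).Q : ℝ))) (r := ((sq tb s i).Q : ℝ) ^ 2)
    (h.m i hi) (h.k i hi) (h.c i hi)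
  rw [abs_neg, abs_mul, abs_mul, abs_pow, abs_pow, abs_two] at h3
  refine le_trans (le_of_eq ?_) (h3.trans (le_of_eq ?_))
  · congr 1
    ring
  · ring

theorem sum_y0 (h : Enc tb n xC xM xK) (z : Zer s) :
    |∑ i ∈ Finset.range n, (W tb s i : ℝ) * (((sq tb s i).A : ℝ) ^ 2 * xC i +
      2 * ((sq tb s i).A : ℝ) * ((sq tb s i).B : ℝ) * xK i + ((sq tb s i).B : ℝ) ^ 2 * xM i) -
      ((sq tb s n).y0 : ℝ)| ≤ ((sq tb s n).f2 : ℝ) := by
  refine acc _ (fun i => ((sq tb s i).y0 : ℝ)) (fun i => ((sq tb s i).f2 : ℝ))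
    (by simp [sq, z.y0]) (by simp [sq, z.f2]) n fun i hi => ?_
  have e1 : ((sq tb s (i + 1)).y0 : ℝ) - ((sq tb s i).y0 : ℝ) =
      (W tb s i : ℝ) * (((sq tb s i).A : ℝ) ^ 2 * ((tb i).2.1 : ℝ) +
        2 * ((sq tb s i).A : ℝ) * ((sq tb s i).B : ℝ) * ((tb i).2.2.2 : ℝ) +
        ((sq tb s i).B : ℝ) ^ 2 * ((tb i).2.2.1 : ℝ)) := by
    have : (sq tb s (i + 1)).y0 = (sq tb s i).y0 + ((W tb s i : ℕ) : ℤ) *
      ((sq tb s i).A * ((sq tb s i).A * ((tb i).2.1 : ℤ) + (sq tb s i).B * ((tb i).2.2.2 : ℤ)) +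
        (sq tb s i).B * ((sq tb s i).A * ((tb i).2.2.2 : ℤ) +
          (sq tb s i).B * ((tb i).2.2.1 : ℤ))) := rfl
    rw [this]; push_cast; ring
  have e2 : ((sq tb s (i + 1)).f2 : ℝ) - ((sq tb s i).f2 : ℝ) = (W tb s i : ℝ) *
      (|((sq tb s i).A : ℝ)| + |((sq tb s i).B : ℝ)|) ^ 2 := by
    have : (sq tb s (i + 1)).f2 = (sq tb s i).f2 + W tb s i *
      (((sq tb s i).A.natAbs + (sq tb s i).B.natAbs) *
        ((sq tb s i).A.natAbs + (sq tb s i).B.natAbs)) := rfl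
    rw [this, ← natAbs_cast, ← natAbs_cast]; push_cast; ring
  show |_ - (((sq tb s (i + 1)).y0 : ℝ) - ((sq tb s i).y0 : ℝ))| ≤
    ((sq tb s (i + 1)).f2 : ℝ) - ((sq tb s i).f2 : ℝ)
  rw [e1, e2, ← mul_sub, abs_mul, abs_of_nonneg (wpos i)]
  refine mul_le_mul_of_nonneg_left ?_ (wpos i)
  have h3 := lin3 (p := ((sq tb s i).A : ℝ) ^ 2)
    (q := 2 * ((sq tb s i).A : ℝ) * ((sq tb s i).B : ℝ)) (r := ((sq tb s i).B : ℝ) ^ 2)
    (h.c i hi) (h.k i hi) (h.m i hi)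
  rw [abs_mul, abs_mul, abs_pow, abs_pow, abs_two] at h3
  refine le_trans (le_of_eq ?_) (h3.trans (le_of_eq ?_))
  · congr 1
    ring
  · ring

/-- the sum of the weights -/
theorem sum_q (h : Enc tb n xC xM xK) (z : Zer s) :
    ∑ i ∈ Finset.range n, 1000000000000 * (xC i + xM i) / (4 * (W tb s i : ℝ)) ≤
      ((sq tb s n).q : ℝ) := by
  suffices H : ∀ k, k ≤ n → ∑ i ∈ Finset.range k,
      1000000000000 * (xC i + xM i) / (4 * (W tb s i : ℝ)) ≤ ((sq tb s k).q : ℝ) from H n le_rfl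
  intro k
  induction k with
  | zero => intro _; simp [sq, z.q]
  | succ k ih =>
    intro hk
    rw [Finset.sum_range_succ]
    have hW : 0 < W tb s k := Nat.succ_pos _
    have e1 : (sq tb s (k + 1)).q = (sq tb s k).q +
      (1000000000000 * ((tb k).2.1 + (tb k).2.2.1 + 2) / (4 * W tb s k) + 1) := rfl
    have h1 := abs_le.1 (h.c k (by omega))
    have h2 := abs_le.1 (h.m k (by omega))
    have h3 : 1000000000000 * (xC k + xM k) / (4 * (W tb s k : ℝ)) ≤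
        ((1000000000000 * ((tb k).2.1 + (tb k).2.2.1 + 2) / (4 * W tb s k) + 1 : ℕ) : ℝ) := by
      have h4 : 1000000000000 * ((tb k).2.1 + (tb k).2.2.1 + 2) < 4 * W tb s k *
          (1000000000000 * ((tb k).2.1 + (tb k).2.2.1 + 2) / (4 * W tb s k) + 1) :=
        Nat.lt_mul_div_succ _ (by omega)
      have h5 : (1000000000000 : ℝ) * (((tb k).2.1 : ℝ) + ((tb k).2.2.1 : ℝ) + 2) ≤
          4 * (W tb s k : ℝ) *
          ((1000000000000 * ((tb k).2.1 + (tb k).2.2.1 + 2) / (4 * W tb s k) + 1 : ℕ) : ℝ) := by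
        exact_mod_cast h4.le
      have hW' : (0 : ℝ) < 4 * (W tb s k : ℝ) := by
        have : (0 : ℝ) < (W tb s k : ℝ) := by exact_mod_cast hW
        linarith
      rw [div_le_iff₀ hW', mul_comm _ (4 * (W tb s k : ℝ))]
      refine le_trans ?_ h5
      linarith [h1.2, h2.2]
    rw [e1]
    push_cast at h3 ⊢
    linarith [ih (by omega)]

end

/-! ### The final test -/

/-- minimum -/
def mn (a b : ℚ) : ℚ := if a ≤ b then a else b
/-- maximum -/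
def mx (a b : ℚ) : ℚ := if a ≤ b then b else a

theorem mn_l (a b : ℚ) : mn a b ≤ a := by unfold mn; split_ifs <;> linarith
theorem mn_r (a b : ℚ) : mn a b ≤ b := by unfold mn; split_ifs <;> linarith
theorem mx_l (a b : ℚ) : a ≤ mx a b := by unfold mx; split_ifs <;> linarith
theorem mx_r (a b : ℚ) : b ≤ mx a b := by unfold mx; split_ifs <;> linarith

/-- lower end of a product of intervals -/
def pl (a b c d : ℚ) : ℚ := mn (mn (a * c) (a * d)) (mn (b * c) (b * d))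
/-- upper end of a product of intervals -/
def pu (a b c d : ℚ) : ℚ := mx (mx (a * c) (a * d)) (mx (b * c) (b * d))

theorem box (a b c d : ℚ) : Box a b c d (pl a b c d) (pu a b c d) := by
  unfold Box pl pu
  refine ⟨⟨?_, ?_⟩, ⟨?_, ?_⟩, ⟨?_, ?_⟩, ⟨?_, ?_⟩⟩
  · exact (mn_l _ _).trans (mn_l _ _)
  · exact (mx_l _ _).trans (mx_l _ _)
  · exact (mn_l _ _).trans (mn_r _ _)
  · exact (mx_r _ _).trans (mx_l _ _)
  · exact (mn_r _ _).trans (mn_l _ _)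
  · exact (mx_l _ _).trans (mx_r _ _)
  · exact (mn_r _ _).trans (mn_r _ _)
  · exact (mx_r _ _).trans (mx_r _ _)

/-- upper bound of the trace -/
def trU (a b : Fin 6 → ℚ) : ℚ :=
  pu (a 0) (b 0) (a 3) (b 3) + 2 * pu (a 1) (b 1) (a 4) (b 4) + pu (a 2) (b 2) (a 5) (b 5)

/-- lower bound of the product of the determinants -/
def dtL (a b : Fin 6 → ℚ) : ℚ :=
  pl (pl (a 0) (b 0) (a 2) (b 2) - pu (a 1) (b 1) (a 1) (b 1))
    (pu (a 0) (b 0) (a 2) (b 2) - pl (a 1) (b 1) (a 1) (b 1))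
    (pl (a 3) (b 3) (a 5) (b 5) - pu (a 4) (b 4) (a 4) (b 4))
    (pu (a 3) (b 3) (a 5) (b 5) - pl (a 4) (b 4) (a 4) (b 4))

/-- the final test -/
def okB (t d : ℚ) : Prop := 0 ≤ t ∧ t ≤ 2 * plo ^ 2 ∧ 0 ≤ plo ^ 4 - phi ^ 2 * t + d

instance (t d : ℚ) : Decidable (okB t d) := by unfold okB; infer_instance

theorem last_of {a b : Fin 6 → ℚ} (h : okB (trU a b) (dtL a b)) :
    ∃ u v : Fin 8 → ℚ, Last a b u v := by
  refine ⟨![pl (a 0) (b 0) (a 3) (b 3), pl (a 1) (b 1) (a 4) (b 4), pl (a 2) (b 2) (a 5) (b 5),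
    pl (a 0) (b 0) (a 2) (b 2), pl (a 1) (b 1) (a 1) (b 1), pl (a 3) (b 3) (a 5) (b 5),
    pl (a 4) (b 4) (a 4) (b 4), dtL a b],
    ![pu (a 0) (b 0) (a 3) (b 3), pu (a 1) (b 1) (a 4) (b 4), pu (a 2) (b 2) (a 5) (b 5),
    pu (a 0) (b 0) (a 2) (b 2), pu (a 1) (b 1) (a 1) (b 1), pu (a 3) (b 3) (a 5) (b 5),
    pu (a 4) (b 4) (a 4) (b 4),
    pu (pl (a 0) (b 0) (a 2) (b 2) - pu (a 1) (b 1) (a 1) (b 1))
    (pu (a 0) (b 0) (a 2) (b 2) - pl (a 1) (b 1) (a 1) (b 1))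
    (pl (a 3) (b 3) (a 5) (b 5) - pu (a 4) (b 4) (a 4) (b 4))
    (pu (a 3) (b 3) (a 5) (b 5) - pl (a 4) (b 4) (a 4) (b 4))], ?_⟩
  constructor
  · exact box _ _ _ _
  · exact box _ _ _ _
  · exact box _ _ _ _
  · exact box _ _ _ _
  · exact box _ _ _ _
  · exact box _ _ _ _
  · exact box _ _ _ _
  · exact box _ _ _ _
  · exact h.2.1
  · exact h.1
  · exact h.2.2

/-- the lower ends of the six numbers -/
def lo6 (R : ℕ) (s : St) : Fin 6 → ℚ := ![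
  ((s.x0 - (s.e0 : ℤ) : ℤ) : ℚ) / 10 ^ 36,
  ((s.x1 - (s.e1 : ℤ) : ℤ) : ℚ) / (10 ^ 48 * (R : ℚ)),
  ((s.x2 - (s.e2 : ℤ) : ℤ) : ℚ) / (10 ^ 60 * (R : ℚ) ^ 2),
  ((s.y0 - (s.f2 : ℤ) : ℤ) : ℚ) / 10 ^ 60,
  ((-s.y1 - (s.f1 : ℤ) : ℤ) : ℚ) / 10 ^ 48,
  ((s.y2 - (s.e0 : ℤ) : ℤ) : ℚ) / 10 ^ 36]

/-- the upper ends of the six numbers -/
def up6 (R : ℕ) (s : St) : Fin 6 → ℚ := ![
  ((s.x0 + (s.e0 : ℤ) : ℤ) : ℚ) / 10 ^ 36,
  ((s.x1 + (s.e1 : ℤ) : ℤ) : ℚ) / (10 ^ 48 * (R : ℚ)),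
  ((s.x2 + (s.e2 : ℤ) : ℤ) : ℚ) / (10 ^ 60 * (R : ℚ) ^ 2),
  ((s.y0 + (s.f2 : ℤ) : ℤ) : ℚ) / 10 ^ 60,
  ((-s.y1 + (s.f1 : ℤ) : ℤ) : ℚ) / 10 ^ 48,
  ((s.y2 + (s.e0 : ℤ) : ℤ) : ℚ) / 10 ^ 36]

/-- the sum of the digits of a row -/
def dsum : ℕ → ℕ → ℤ
  | 0, _ => 0
  | n + 1, c => dg c + dsum n (c / 18446744073709551616)

/-- the state at the beginning; `k` is the constant in units of `10 ^ (-12)` -/
def s0 (n : ℕ) (k : ℤ) (R c v w : ℕ) : St :=
  ⟨c, v, w, 0, k + dsum n c * 10000000, 0, k * (R : ℤ) + dsum n v * 10000000,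
    0, 0, 0, 0, 0, 0, 0, 0, 0, 0, 0, 0⟩

/-- the test of the final state -/
def tst (k : ℤ) (R : ℕ) (s : St) : Prop :=
  s.B = k ∧ s.Q = k * (R : ℤ) ∧ 2 * s.q ≤ 3141592653589793238460000 ∧
    okB (trU (lo6 R s) (up6 R s)) (dtL (lo6 R s) (up6 R s))

instance (k : ℤ) (R : ℕ) (s : St) : Decidable (tst k R s) := by unfold tst; infer_instance

/-- the test -/
def chk (tb : List (ℕ × ℕ × ℕ × ℕ)) (k : ℤ) (R c v w : ℕ) : Prop :=
  tst k R (tb.foldl stp (s0 tb.length k R c v w))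

instance (tb : List (ℕ × ℕ × ℕ × ℕ)) (k : ℤ) (R c v w : ℕ) : Decidable (chk tb k R c v w) := by
  unfold chk; infer_instance

/-! ### The test implies the numerical condition -/

/-- the enclosures of the integrals over the sectors, with the table `tb` -/
def Encl (V : VD) (N L : ℕ) (tb : List (ℕ × ℕ × ℕ × ℕ)) : Prop :=
  ∀ i : Fin (L + 1),
    |10 ^ 24 * (2 * Icc2 (V.toQ N L).toDat.t i) - ((tb.getD i.val (0, 0, 0, 0)).2.1 : ℝ)| ≤ 1 ∧
    |10 ^ 24 * (2 * Iss2 (V.toQ N L).toDat.t i) - ((tb.getD i.val (0, 0, 0, 0)).2.2.1 : ℝ)| ≤ 1 ∧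
    |10 ^ 24 * (2 * Ics2 (V.toQ N L).toDat.t i) - ((tb.getD i.val (0, 0, 0, 0)).2.2.2 : ℝ)| ≤ 1

theorem abs_le_of {x a b C : ℝ} (h1 : a ≤ x) (h2 : x ≤ b) (h3 : b ≤ C + 1) (h4 : C - 1 ≤ a) :
    |x - C| ≤ 1 := by
  rw [abs_le]; constructor <;> linarith

theorem encl_of {V : VD} {N L : ℕ} {tb : List (ℕ × ℕ × ℕ × ℕ)} (dlo dhi s k : Fin (L + 1) → ℚ)
    (hd : ∀ i, ((dlo i : ℚ) : ℝ) ≤ Dl (V.toQ N L).toDat.t i ∧
      Dl (V.toQ N L).toDat.t i ≤ ((dhi i : ℚ) : ℝ))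
    (hs : ∀ i, sgQ (fun i : Fin L => V.t i.val) i = s i)
    (hk : ∀ i, kpQ (fun i : Fin L => V.t i.val) i = k i)
    (h : ∀ i : Fin (L + 1),
      (10 ^ 24 * (dhi i + s i) ≤ ((tb.getD i.val (0, 0, 0, 0)).2.1 : ℚ) + 1 ∧
        ((tb.getD i.val (0, 0, 0, 0)).2.1 : ℚ) - 1 ≤ 10 ^ 24 * (dlo i + s i)) ∧
      (10 ^ 24 * (dhi i - s i) ≤ ((tb.getD i.val (0, 0, 0, 0)).2.2.1 : ℚ) + 1 ∧
        ((tb.getD i.val (0, 0, 0, 0)).2.2.1 : ℚ) - 1 ≤ 10 ^ 24 * (dlo i - s i)) ∧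
      (10 ^ 24 * k i ≤ ((tb.getD i.val (0, 0, 0, 0)).2.2.2 : ℚ) + 1 ∧
        ((tb.getD i.val (0, 0, 0, 0)).2.2.2 : ℚ) - 1 ≤ 10 ^ 24 * k i)) : Encl V N L tb := by
  intro i
  have hcc : Icc2 (V.toQ N L).toDat.t i = (Dl (V.toQ N L).toDat.t i + ((s i : ℚ) : ℝ)) / 2 := by
    rw [← hs i]
    have := sg_real (V.toQ N L).t i
    change _ = ((sgQ (fun i : Fin L => V.t i.val) i : ℚ) : ℝ) at this
    rw [← this]
    rfl
  have hss : Iss2 (V.toQ N L).toDat.t i = (Dl (V.toQ N L).toDat.t i - ((s i : ℚ) : ℝ)) / 2 := by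
    rw [← hs i]
    have := sg_real (V.toQ N L).t i
    change _ = ((sgQ (fun i : Fin L => V.t i.val) i : ℚ) : ℝ) at this
    rw [← this]
    rfl
  have hcs : Ics2 (V.toQ N L).toDat.t i = ((k i : ℚ) : ℝ) / 2 := by
    rw [← hk i]
    have := kp_real (V.toQ N L).t i
    change _ = ((kpQ (fun i : Fin L => V.t i.val) i : ℚ) : ℝ) at this
    rw [← this]
    rfl
  obtain ⟨d1, d2⟩ := hd i
  obtain ⟨⟨h1, h2⟩, ⟨h3, h4⟩, ⟨h5, h6⟩⟩ := h i
  rw [hcc, hss, hcs]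
  have h1' := (Rat.cast_le (K := ℝ)).2 h1
  have h2' := (Rat.cast_le (K := ℝ)).2 h2
  have h3' := (Rat.cast_le (K := ℝ)).2 h3
  have h4' := (Rat.cast_le (K := ℝ)).2 h4
  have h5' := (Rat.cast_le (K := ℝ)).2 h5
  have h6' := (Rat.cast_le (K := ℝ)).2 h6
  push_cast at h1' h2' h3' h4' h5' h6'
  refine ⟨abs_le_of (a := 10 ^ 24 * ((dlo i : ℝ) + (s i : ℝ)))
      (b := 10 ^ 24 * ((dhi i : ℝ) + (s i : ℝ))) ?_ ?_ h1' h2',
    abs_le_of (a := 10 ^ 24 * ((dlo i : ℝ) - (s i : ℝ)))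
      (b := 10 ^ 24 * ((dhi i : ℝ) - (s i : ℝ))) ?_ ?_ h3' h4',
    abs_le_of (a := 10 ^ 24 * (k i : ℝ)) (b := 10 ^ 24 * (k i : ℝ)) ?_ ?_ h5' h6'⟩ <;> linarith

theorem div_encl {S : ℝ} {X : ℤ} {E : ℕ} {D : ℚ} (hD : 0 < D) (h : |S - (X : ℝ)| ≤ (E : ℝ)) :
    (((((X - (E : ℤ) : ℤ) : ℚ) / D : ℚ)) : ℝ) ≤ S / ((D : ℚ) : ℝ) ∧
      S / ((D : ℚ) : ℝ) ≤ (((((X + (E : ℤ) : ℤ) : ℚ) / D : ℚ)) : ℝ) := by
  have hD' : (0 : ℝ) < ((D : ℚ) : ℝ) := by exact_mod_cast hD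
  rw [abs_le] at h
  push_cast
  exact ⟨div_le_div_of_nonneg_right (by linarith [h.1]) hD'.le,
    div_le_div_of_nonneg_right (by linarith [h.2]) hD'.le⟩

theorem sum_conv {n : ℕ} {D : ℝ} (F : Fin n → ℝ) (G : ℕ → ℝ) (h : ∀ i : Fin n, F i = G i.val / D) :
    ∑ i, F i = (∑ i ∈ Finset.range n, G i) / D := by
  rw [Finset.sum_div, ← Fin.sum_univ_eq_sum_range (fun i => G i / D)]
  exact Finset.sum_congr rfl fun i _ => h i

theorem zer (n : ℕ) (k : ℤ) (R c v w : ℕ) : Zer (s0 n k R c v w) :=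
  ⟨rfl, rfl, rfl, rfl, rfl, rfl, rfl, rfl, rfl, rfl, rfl, rfl⟩

/-- **The test implies the numerical condition.** -/
theorem condF {V : VD} {N L : ℕ} (hV : V.Ok N L) (J : Fin N) (e : ℕ)
    (he : e = J.val ∨ e = J.val + 1) {tb : List (ℕ × ℕ × ℕ × ℕ)} (hlen : tb.length = L + 1)
    {k : ℤ} {R c v w : ℕ} (hR : 0 < R) (hρ : V.ρ e = (R : ℚ) / 10000000)
    (hk : V.ka = (k : ℚ) / 1000000000000)
    (ht : ∀ i, i < L → V.t i = ((tb.getD i (0, 0, 0, 0)).1 : ℚ) / 10000000)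
    (hc : ∀ i, i ≤ L → V.c J.val i = ((dg (c / 2 ^ (64 * i)) : ℤ) : ℚ) / 100000)
    (hv : ∀ i, i ≤ L → V.v e i = ((dg (v / 2 ^ (64 * i)) : ℤ) : ℚ) / 1000000000000)
    (hE : Encl V N L tb) (h : chk tb k R c v w) :
    ∃ l, CondQ (V.toQ N L) J (V.ρ e) l := by
  unfold chk at h
  rw [foldl_sq, hlen] at h
  set g : ℕ → ℕ × ℕ × ℕ × ℕ := fun i => tb.getD i (0, 0, 0, 0) with hg
  set s : St := s0 (L + 1) k R c v w with hs
  obtain ⟨hB, hQ, hq, hok⟩ := h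
  have hRq : (0 : ℚ) < (R : ℚ) := by exact_mod_cast hR
  have hR0 : (R : ℚ) ≠ 0 := hRq.ne'
  have hρ0 : V.ρ e ≠ 0 := by
    rw [hρ]; positivity
  have hsc : ∀ i, (sq g s i).c = c / 2 ^ (64 * i) := fun i => sq_c g s i
  have hsv : ∀ i, (sq g s i).v = v / 2 ^ (64 * i) := fun i => sq_v g s i
  have sA : ∀ i, (sq g s (i + 1)).A = (sq g s i).A + dg (c / 2 ^ (64 * i)) * ((g i).1 : ℤ) := by
    intro i; rw [← hsc i]; rfl
  have sB : ∀ i, (sq g s (i + 1)).B = (sq g s i).B - dg (c / 2 ^ (64 * i)) * 10000000 := by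
    intro i; rw [← hsc i]; rfl
  have sP : ∀ i, (sq g s (i + 1)).P = (sq g s i).P + dg (v / 2 ^ (64 * i)) * ((g i).1 : ℤ) := by
    intro i; rw [← hsv i]; rfl
  have sQ : ∀ i, (sq g s (i + 1)).Q = (sq g s i).Q - dg (v / 2 ^ (64 * i)) * 10000000 := by
    intro i; rw [← hsv i]; rfl
  have hA : Inc L V.ka (V.c J.val L) V.t (V.c J.val)
      (fun i : Fin (L + 1) => ((sq g s i.val).A : ℚ) / 1000000000000)
      (fun i : Fin (L + 1) => ((sq g s i.val).B : ℚ) / 1000000000000) := by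
    constructor
    · show (((0 : ℤ) : ℚ)) / 1000000000000 = 0
      simp
    · intro i
      show ((sq g s (i.val + 1)).A : ℚ) / _ = ((sq g s i.val).A : ℚ) / _ + _
      rw [sA, hc i.val i.isLt.le, ht i.val i.isLt]
      push_cast
      ring
    · show ((sq g s L).B : ℚ) / _ = _
      have h1 := sB L
      rw [hB] at h1
      have h2 : ((sq g s L).B : ℚ) = (k : ℚ) + ((dg (c / 2 ^ (64 * L)) : ℤ) : ℚ) * 10000000 := by
        have h3 : (sq g s L).B = k + dg (c / 2 ^ (64 * L)) * 10000000 := by linarith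
        rw [h3]; push_cast; ring
      rw [h2, hk, hc L le_rfl]
      ring
    · intro i
      show ((sq g s i.val).B : ℚ) / _ = ((sq g s (i.val + 1)).B : ℚ) / _ + _
      rw [sB, hc i.val i.isLt.le]
      push_cast
      ring
  have hC : Inc L V.ka (V.v e L / V.ρ e) V.t (fun i => V.v e i / V.ρ e)
      (fun i : Fin (L + 1) => ((sq g s i.val).P : ℚ) / (1000000000000 * R))
      (fun i : Fin (L + 1) => ((sq g s i.val).Q : ℚ) / (1000000000000 * R)) := by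
    constructor
    · show (((0 : ℤ) : ℚ)) / (1000000000000 * R) = 0
      simp
    · intro i
      show ((sq g s (i.val + 1)).P : ℚ) / _ = ((sq g s i.val).P : ℚ) / _ + _
      rw [sP, hv i.val i.isLt.le, ht i.val i.isLt, hρ,
        show g i.val = tb.getD i.val (0, 0, 0, 0) from rfl]
      push_cast
      field_simp
    · show ((sq g s L).Q : ℚ) / _ = _
      have h1 := sQ L
      rw [hQ] at h1
      have h2 : ((sq g s L).Q : ℚ) = (k : ℚ) * R +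
          ((dg (v / 2 ^ (64 * L)) : ℤ) : ℚ) * 10000000 := by
        have h3 : (sq g s L).Q = k * (R : ℤ) + dg (v / 2 ^ (64 * L)) * 10000000 := by linarith
        rw [h3]; push_cast; ring
      rw [h2, hk, hv L le_rfl, hρ]
      field_simp
    · intro i
      show ((sq g s i.val).Q : ℚ) / _ = ((sq g s (i.val + 1)).Q : ℚ) / _ + _
      rw [sQ, hv i.val i.isLt.le, hρ]
      push_cast
      field_simp
      ring
  have tA := tabA (N := N) J hA
  have tC := tabC hV J e he hρ0 hC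
  have hz : Zer s := zer _ _ _ _ _ _
  have hW : ∀ i, 0 < W g s i := fun i => Nat.succ_pos _
  have hWr : ∀ i, (0 : ℝ) < (W g s i : ℝ) := fun i => by exact_mod_cast hW i
  set t := (V.toQ N L).toDat.t with hdt
  set xC : ℕ → ℝ := fun i => if h : i < L + 1 then 10 ^ 24 * (2 * Icc2 t ⟨i, h⟩) else 0 with hxC
  set xM : ℕ → ℝ := fun i => if h : i < L + 1 then 10 ^ 24 * (2 * Iss2 t ⟨i, h⟩) else 0 with hxM
  set xK : ℕ → ℝ := fun i => if h : i < L + 1 then 10 ^ 24 * (2 * Ics2 t ⟨i, h⟩) else 0 with hxK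
  have vC : ∀ i : Fin (L + 1), xC i.val = 10 ^ 24 * (2 * Icc2 t i) := by
    intro i; simp only [hxC, i.isLt, dite_true]
  have vM : ∀ i : Fin (L + 1), xM i.val = 10 ^ 24 * (2 * Iss2 t i) := by
    intro i; simp only [hxM, i.isLt, dite_true]
  have vK : ∀ i : Fin (L + 1), xK i.val = 10 ^ 24 * (2 * Ics2 t i) := by
    intro i; simp only [hxK, i.isLt, dite_true]
  have hEnc : Enc g (L + 1) xC xM xK := by
    constructor
    · intro i hi
      rw [vC ⟨i, hi⟩]; exact (hE ⟨i, hi⟩).1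
    · intro i hi
      rw [vM ⟨i, hi⟩]; exact (hE ⟨i, hi⟩).2.1
    · intro i hi
      rw [vK ⟨i, hi⟩]; exact (hE ⟨i, hi⟩).2.2
  have hfA : (fA (J.val + 1) : Fin N → ℝ) =
      fun j => (((if j.val < J.val + 1 then 1 else 0 : ℚ)) : ℝ) := by
    funext j
    unfold fA
    split_ifs <;> simp
  have hfC : fC (V.toQ N L).toDat (J.val + 1) ((V.ρ e : ℚ) : ℝ) =
      fun j => (((if j.val < J.val + 1 then 1 - (V.toQ N L).ρ j / V.ρ e else 0 : ℚ)) : ℝ) := by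
    funext j
    unfold fC DatQ.toDat
    split_ifs <;> simp
  refine ⟨fun i => 1000000000000 / (2 * (W g s i.val : ℚ)), ?_⟩
  unfold CondQ
  rw [hfA, hfC]
  refine ⟨?_, ?_, ?_⟩
  · intro i
    have := hWr i.val
    push_cast
    positivity
  · have h1 := sum_q hEnc hz
    rw [sum_conv (D := 10 ^ 24) _
      (fun i => 1000000000000 * (xC i + xM i) / (4 * (W g s i : ℝ))) (fun i => by
        have h2 : Dl t i = Icc2 t i + Iss2 t i := by unfold Icc2 Iss2; ring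
        have h3 := (hWr i.val).ne'
        show (((1000000000000 / (2 * (W g s i.val : ℚ)) : ℚ)) : ℝ) * Dl t i = _
        rw [vC i, vM i, h2]
        push_cast
        field_simp
        ring)]
    rw [div_le_iff₀ (by norm_num)]
    have h4 : (2 : ℝ) * ((sq g s (L + 1)).q : ℝ) ≤ 3141592653589793238460000 := by
      exact_mod_cast hq
    have h5 := Real.pi_gt_d20
    linarith
  · intro X00 X01 X11 Y00 Y01 Y11 e0 e1 e2 e3 e4 e5
    simp only [tA.al_eq, tA.be_eq, tC.al_eq, tC.be_eq] at e0 e1 e2 e3 e4 e5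
    obtain ⟨u, v', hL⟩ := last_of hok
    have hR1 : (R : ℝ) ≠ 0 := by exact_mod_cast hR0
    refine hL.fin ?_ ?_ ?_ ?_ ?_ ?_
    · rw [e0, sum_conv (D := ((10 ^ 36 : ℚ) : ℝ)) _ (fun i => (W g s i : ℝ) * xC i) (fun i => by
        have h3 := (hWr i.val).ne'
        rw [vC i]
        push_cast
        rw [← hdt]
        field_simp
        ring)]
      exact div_encl (by norm_num) (sum_x0 hEnc hz)
    · rw [e1, sum_conv (D := ((10 ^ 48 * (R : ℚ) : ℚ) : ℝ)) _ (fun i => (W g s i : ℝ) *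
        (((sq g s i).P : ℝ) * xK i - ((sq g s i).Q : ℝ) * xC i)) (fun i => by
        have h3 := (hWr i.val).ne'
        rw [vC i, vK i]
        push_cast
        rw [← hdt]
        field_simp
        ring)]
      exact div_encl (by positivity) (sum_x1 hEnc hz)
    · rw [e2, sum_conv (D := ((10 ^ 60 * (R : ℚ) ^ 2 : ℚ) : ℝ)) _ (fun i => (W g s i : ℝ) *
        (((sq g s i).P : ℝ) ^ 2 * xM i - 2 * ((sq g s i).P : ℝ) * ((sq g s i).Q : ℝ) * xK i +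
          ((sq g s i).Q : ℝ) ^ 2 * xC i)) (fun i => by
        have h3 := (hWr i.val).ne'
        rw [vC i, vK i, vM i]
        push_cast
        rw [← hdt]
        field_simp
        ring)]
      exact div_encl (by positivity) (sum_x2 hEnc hz)
    · rw [e3, sum_conv (D := ((10 ^ 60 : ℚ) : ℝ)) _ (fun i => (W g s i : ℝ) *
        (((sq g s i).A : ℝ) ^ 2 * xC i + 2 * ((sq g s i).A : ℝ) * ((sq g s i).B : ℝ) * xK i +
          ((sq g s i).B : ℝ) ^ 2 * xM i)) (fun i => by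
        have h3 := (hWr i.val).ne'
        rw [vC i, vK i, vM i]
        push_cast
        rw [← hdt]
        field_simp
        ring)]
      exact div_encl (by norm_num) (sum_y0 hEnc hz)
    · rw [e4, sum_conv (D := ((10 ^ 48 : ℚ) : ℝ)) _ (fun i => (W g s i : ℝ) *
        (((sq g s i).A : ℝ) * xK i + ((sq g s i).B : ℝ) * xM i)) (fun i => by
        have h3 := (hWr i.val).ne'
        rw [vM i, vK i]
        push_cast
        rw [← hdt]
        field_simp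
        ring), ← neg_div]
      refine div_encl (X := -(sq g s (L + 1)).y1) (by norm_num) ?_
      have h6 := sum_y1 hEnc hz
      rw [← abs_neg] at h6
      refine le_trans (le_of_eq ?_) h6
      congr 1
      push_cast
      ring
    · rw [e5, sum_conv (D := ((10 ^ 36 : ℚ) : ℝ)) _ (fun i => (W g s i : ℝ) * xM i) (fun i => by
        have h3 := (hWr i.val).ne'
        rw [vM i]
        push_cast
        rw [← hdt]
        field_simp
        ring)]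
      exact div_encl (by norm_num) (sum_y2 hEnc hz)

end Pool.Agent.K9h57.FA
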