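import Pool.Agent.N954.P1.Gen
import Pool.Agent.N979.P1.Fin
import Pool.Agent.N669.P1_JPOL

/-!
# Orientable fillings of the circle: data given by the values at the radii (generic part)

The calibration is given by the numbers `v j i` (the coefficients of the function at the radius
`ρ j`) and `c j i` (the coefficients of its radial derivative between `ρ j` and `ρ (j + 1)`); the
index `i = L` belongs to the coefficient of the second coordinate.
-/

set_option autoImplicit false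

open MeasureTheory Metric Set Filter Topology InnerProductGeometry

namespace Pool.Agent.K9h57.FA

open Pool.Agent.H241R3.FV Pool.Agent.N526.CP Pool.Agent.N979.P1 Pool.Agent.N954.P1

/-- data given by values and radial slopes -/
structure VD where
  ka : ℚ
  ρ : ℕ → ℚ
  t : ℕ → ℚ
  c : ℕ → ℕ → ℚ
  v : ℕ → ℕ → ℚ

/-- the increments of the slopes -/
def inc (g : ℕ → ℚ) (j : ℕ) : ℚ := g j - if j = 0 then 0 else g (j - 1)

/-- the data in the old format -/
def VD.toQ (V : VD) (N L : ℕ) : DatQ N L where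
  ka := V.ka
  ρ := fun j => V.ρ j.val
  t := fun i => V.t i.val
  m0 := fun j => inc (fun j => V.c j L) j.val
  m := fun j i => inc (fun j => V.c j i.val) j.val

/-- the consistency of the data -/
structure VD.Ok (V : VD) (N L : ℕ) : Prop where
  z : ∀ i, i ≤ L → V.v 0 i = 0
  s : ∀ j, j < N → ∀ i, i ≤ L → V.v (j + 1) i = V.v j i + (V.ρ (j + 1) - V.ρ j) * V.c j i

theorem sum_inc (g : ℕ → ℚ) : ∀ J : ℕ, ∑ j ∈ Finset.range (J + 1), inc g j = g J
  | 0 => by simp [inc]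
  | J + 1 => by
    rw [Finset.sum_range_succ, sum_inc g J]
    simp [inc]

theorem sum_val (ρ g w : ℕ → ℚ) (N : ℕ) (h0 : w 0 = 0)
    (hs : ∀ j, j < N → w (j + 1) = w j + (ρ (j + 1) - ρ j) * g j) :
    ∀ J : ℕ, J ≤ N → ∑ j ∈ Finset.range J, (ρ J - ρ j) * inc g j = w J
  | 0, _ => by simp [h0]
  | J + 1, hJ => by
    have h1 := sum_val ρ g w N h0 hs J (by omega)
    have h2 := sum_inc g J
    have h3 : ∑ j ∈ Finset.range (J + 1), (ρ (J + 1) - ρ j) * inc g j =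
        ∑ j ∈ Finset.range (J + 1), (ρ J - ρ j) * inc g j +
          (ρ (J + 1) - ρ J) * ∑ j ∈ Finset.range (J + 1), inc g j := by
      rw [Finset.mul_sum, ← Finset.sum_add_distrib]
      exact Finset.sum_congr rfl fun j _ => by ring
    rw [h3, h2, Finset.sum_range_succ, h1, hs J (by omega)]
    ring

theorem sum_trunc (N J : ℕ) (hJ : J < N) (f g : ℕ → ℚ) :
    ∑ j : Fin N, (if j.val < J + 1 then f j.val else 0) * g j.val =
      ∑ j ∈ Finset.range (J + 1), f j * g j := by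
  rw [Fin.sum_univ_eq_sum_range (fun j => (if j < J + 1 then f j else 0) * g j) N]
  rw [← Finset.sum_subset (s₁ := Finset.range (J + 1))]
  · refine Finset.sum_congr rfl fun j hj => ?_
    rw [if_pos (Finset.mem_range.1 hj)]
  · intro j hj
    rw [Finset.mem_range] at hj ⊢
    omega
  · intro j _ hj
    rw [Finset.mem_range] at hj
    rw [if_neg hj, zero_mul]

/-- prefix sums by steps -/
structure Inc (L : ℕ) (ka μ : ℚ) (t : ℕ → ℚ) (c : ℕ → ℚ) (α β : Fin (L + 1) → ℚ) : Prop where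
  a0 : α 0 = 0
  a : ∀ i : Fin L, α i.succ = α i.castSucc + c i.val * t i.val
  b0 : β (Fin.last L) = ka + μ
  b : ∀ i : Fin L, β i.castSucc = β i.succ + c i.val

theorem pre_a (L : ℕ) (f : ℕ → ℚ) (α : Fin (L + 1) → ℚ) (h0 : α 0 = 0)
    (h : ∀ i : Fin L, α i.succ = α i.castSucc + f i.val) (l : Fin (L + 1)) :
    (∑ i : Fin L, if i.val < l.val then f i.val else 0) = α l := by
  induction l using Fin.induction with
  | zero => simp [h0]
  | succ l ih =>
    rw [h l, ← ih]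
    have h1 : ∀ i : Fin L, (if i.val < (l.succ).val then f i.val else 0) =
        (if i.val < (l.castSucc).val then f i.val else 0) + (if i = l then f i.val else 0) := by
      intro i
      rcases lt_trichotomy i.val l.val with h2 | h2 | h2
      · rw [if_pos (by simp; omega), if_pos (by simpa using h2), if_neg (by
          intro h3; rw [h3] at h2; exact lt_irrefl _ h2), add_zero]
      · rw [if_pos (by simp; omega), if_neg (by simp; omega), if_pos (Fin.ext h2), zero_add]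
      · rw [if_neg (by simp; omega), if_neg (by simp; omega), if_neg (by
          intro h3; rw [h3] at h2; exact lt_irrefl _ h2), add_zero]
    rw [Finset.sum_congr rfl fun i _ => h1 i, Finset.sum_add_distrib]
    simp

theorem pre_b (L : ℕ) (f : ℕ → ℚ) (β : Fin (L + 1) → ℚ) (b : ℚ) (h0 : β (Fin.last L) = b)
    (h : ∀ i : Fin L, β i.castSucc = β i.succ + f i.val) (l : Fin (L + 1)) :
    b + (∑ i : Fin L, if l.val ≤ i.val then f i.val else 0) = β l := by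
  induction l using Fin.reverseInduction with
  | last =>
    rw [h0]
    have : ∀ i : Fin L, (if (Fin.last L).val ≤ i.val then f i.val else 0) = 0 := by
      intro i
      rw [if_neg (by simp)]
    rw [Finset.sum_congr rfl fun i _ => this i]
    simp
  | cast l ih =>
    rw [h l, ← ih]
    have h1 : ∀ i : Fin L, (if (l.castSucc).val ≤ i.val then f i.val else 0) =
        (if (l.succ).val ≤ i.val then f i.val else 0) + (if i = l then f i.val else 0) := by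
      intro i
      rcases lt_trichotomy i.val l.val with h2 | h2 | h2
      · rw [if_neg (by simp; omega), if_neg (by simp; omega), if_neg (by
          intro h3; rw [h3] at h2; exact lt_irrefl _ h2), add_zero]
      · rw [if_pos (by simp; omega), if_neg (by simp; omega), if_pos (Fin.ext h2), zero_add]
      · rw [if_pos (by simp; omega), if_pos (by simp; omega), if_neg (by
          intro h3; rw [h3] at h2; exact lt_irrefl _ h2), add_zero]
    rw [Finset.sum_congr rfl fun i _ => h1 i, Finset.sum_add_distrib]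
    simp [add_assoc]

/-- the tables of the radial derivative -/
theorem tabA {V : VD} {N L : ℕ} (J : Fin N) {α β : Fin (L + 1) → ℚ}
    (h : Inc L V.ka (V.c J.val L) V.t (V.c J.val) α β) :
    Tab (V.toQ N L) (fun j => if j.val < J.val + 1 then 1 else 0) (fun i => V.c J.val i.val)
      (V.c J.val L) α β := by
  have hm : ∀ i : ℕ, ∑ j : Fin N, (if j.val < J.val + 1 then (1 : ℚ) else 0) *
      inc (fun j => V.c j i) j.val = V.c J.val i := by
    intro i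
    rw [sum_trunc N J.val J.isLt (fun _ => 1) (inc fun j => V.c j i)]
    simp only [one_mul]
    exact sum_inc _ _
  constructor
  · intro i
    rw [fs_eq]
    exact hm i.val
  · rw [fs_eq]
    exact hm L
  · intro l
    rw [fs_eq]
    exact pre_a L (fun i => V.c J.val i * V.t i) α h.a0 h.a l
  · intro l
    rw [fs_eq]
    exact pre_b L (fun i => V.c J.val i) β _ h.b0 h.b l

/-- the tables of the tangential derivative at the ends of the interval -/
theorem tabC {V : VD} {N L : ℕ} (hV : V.Ok N L) (J : Fin N) (e : ℕ)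
    (he : e = J.val ∨ e = J.val + 1) (hr : V.ρ e ≠ 0) {α β : Fin (L + 1) → ℚ}
    (h : Inc L V.ka (V.v e L / V.ρ e) V.t (fun i => V.v e i / V.ρ e) α β) :
    Tab (V.toQ N L) (fun j => if j.val < J.val + 1 then 1 - (V.toQ N L).ρ j / V.ρ e else 0)
      (fun i => V.v e i.val / V.ρ e) (V.v e L / V.ρ e) α β := by
  have hm : ∀ i : ℕ, i ≤ L → ∑ j : Fin N,
      (if j.val < J.val + 1 then (1 : ℚ) - V.ρ j.val / V.ρ e else 0) *
      inc (fun j => V.c j i) j.val = V.v e i / V.ρ e := by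
    intro i hi
    rw [sum_trunc N J.val J.isLt (fun j => 1 - V.ρ j / V.ρ e) (inc fun j => V.c j i)]
    have h1 : ∑ j ∈ Finset.range (J.val + 1), (V.ρ e - V.ρ j) * inc (fun j => V.c j i) j =
        V.v e i := by
      have h2 := sum_val V.ρ (fun j => V.c j i) (fun j => V.v j i) N (hV.z i hi)
        (fun j hj => hV.s j hj i hi)
      rcases he with he | he
      · rw [Finset.sum_range_succ, he, h2 J.val J.isLt.le]
        ring
      · rw [he]
        exact h2 (J.val + 1) J.isLt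
    rw [← h1, Finset.sum_div]
    refine Finset.sum_congr rfl fun j _ => ?_
    field_simp
  constructor
  · intro i
    rw [fs_eq]
    exact hm i.val i.isLt.le
  · rw [fs_eq]
    exact hm L le_rfl
  · intro l
    rw [fs_eq]
    exact pre_a L (fun i => V.v e i / V.ρ e * V.t i) α h.a0 h.a l
  · intro l
    rw [fs_eq]
    exact pre_b L (fun i => V.v e i / V.ρ e) β _ h.b0 h.b l

/-- the numerical condition from the tables -/
theorem condV {V : VD} {N L : ℕ} (hV : V.Ok N L) (dlo dhi : Fin (L + 1) → ℚ) (J : Fin N) (e : ℕ)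
    (he : e = J.val ∨ e = J.val + 1) (hr : V.ρ e ≠ 0) (l : Fin (L + 1) → ℚ)
    (hd : ∀ i, ((dlo i : ℚ) : ℝ) ≤ Dl (V.toQ N L).toDat.t i ∧
      Dl (V.toQ N L).toDat.t i ≤ ((dhi i : ℚ) : ℝ))
    {α β α' β' s k : Fin (L + 1) → ℚ}
    (hA : Inc L V.ka (V.c J.val L) V.t (V.c J.val) α β)
    (hC : Inc L V.ka (V.v e L / V.ρ e) V.t (fun i => V.v e i / V.ρ e) α' β')
    (hs : ∀ i, sgQ (fun i : Fin L => V.t i.val) i = s i)
    (hk : ∀ i, kpQ (fun i : Fin L => V.t i.val) i = k i)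
    (hl : ∀ i, 0 < l i)
    (hsum : fs (L + 1) (fun i => l i * dhi i) ≤ plo / 2)
    {a b : Fin 6 → ℚ} (h6 : Six (L + 1) dlo dhi s k α β α' β' l a b)
    {u v : Fin 8 → ℚ} (hL : Last a b u v) : CondQ (V.toQ N L) J (V.ρ e) l :=
  condQ (V.toQ N L) dlo dhi J (V.ρ e) l hd _ _ (fun _ => rfl) (fun _ => rfl) (tabA J hA)
    (tabC hV J e he hr hC) hs hk hl hsum h6 hL

theorem lt_of_step (ρ : ℕ → ℚ) (N : ℕ) (h : ∀ j, j < N → ρ j < ρ (j + 1)) (a : ℕ) :
    ∀ b, a < b → b ≤ N → ρ a < ρ b := by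
  intro b
  induction b with
  | zero => intro h1; omega
  | succ b ih =>
    intro h1 h2
    rcases Nat.lt_succ_iff_lt_or_eq.1 h1 with h3 | h3
    · exact (ih h3 (by omega)).trans (h b (by omega))
    · rw [h3]; exact h b (by omega)

/-- the numerical conditions of the interval `J` -/
def CK (V : VD) (N L : ℕ) (J : Fin N) : Prop :=
  ∃ l l' : Fin (L + 1) → ℚ, CondQ (V.toQ N L) J (V.ρ J.val) l ∧
    CondQ (V.toQ N L) J (V.ρ (J.val + 1)) l'

/-- A consistent set of data with the numerical conditions gives a certificate. -/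
theorem cert {V : VD} {N L : ℕ} (hka : |V.ka| ≤ 2) (h0 : 0 < V.ρ 0) (ht0 : 0 < V.t 0)
    (hρ : ∀ j, j < N → V.ρ j < V.ρ (j + 1)) (ht : ∀ j, j + 1 < L → V.t j < V.t (j + 1))
    (hR : 2 / Real.pi ≤ ((V.ρ N : ℚ) : ℝ)) (h : ∀ J : Fin N, CK V N L J) :
    2 / Real.pi ≤ ((V.ρ N : ℚ) : ℝ) ∧ Cert (V.toQ N L).toDat ((V.ρ N : ℚ) : ℝ) := by
  have hρ' : ∀ a b, a < b → b ≤ N → V.ρ a < V.ρ b := fun a b => lt_of_step V.ρ N hρ a b
  have ht' : ∀ a b, a < b → b ≤ L - 1 → V.t a < V.t b := fun a b =>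
    lt_of_step V.t (L - 1) (fun j hj => ht j (by omega)) a b
  refine ⟨hR, ?_⟩
  constructor
  · show |((V.ka : ℚ) : ℝ)| ≤ 2
    exact_mod_cast hka
  · intro j
    show (0 : ℝ) < ((V.ρ j.val : ℚ) : ℝ)
    have : 0 < V.ρ j.val := by
      rcases Nat.eq_zero_or_pos j.val with h1 | h1
      · rw [h1]; exact h0
      · exact h0.trans (hρ' 0 j.val h1 j.isLt.le)
    exact_mod_cast this
  · intro i
    show (0 : ℝ) < ((V.t i.val : ℚ) : ℝ)
    have : 0 < V.t i.val := by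
      rcases Nat.eq_zero_or_pos i.val with h1 | h1
      · rw [h1]; exact ht0
      · exact ht0.trans (ht' 0 i.val h1 (by omega))
    exact_mod_cast this
  · intro a b hab
    show ((V.ρ a.val : ℚ) : ℝ) < ((V.ρ b.val : ℚ) : ℝ)
    exact_mod_cast hρ' a.val b.val hab b.isLt.le
  · intro a b hab
    show ((V.t a.val : ℚ) : ℝ) < ((V.t b.val : ℚ) : ℝ)
    exact_mod_cast ht' a.val b.val hab (by omega)
  · intro j
    show ((V.ρ j.val : ℚ) : ℝ) < ((V.ρ N : ℚ) : ℝ)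
    exact_mod_cast hρ' j.val N j.isLt le_rfl
  · intro J
    obtain ⟨l, _, h1, _⟩ := h J
    exact ⟨_, h1⟩
  · intro J r h1 h2
    obtain ⟨_, l, _, h3⟩ := h J
    have hr : r = ((V.ρ (J.val + 1) : ℚ) : ℝ) := by
      by_cases hJ : J.val + 1 < N
      · rw [h1 hJ]
        rfl
      · have hJ' : J.val + 1 = N := by omega
        rw [h2 hJ', hJ']
    rw [hr]
    exact ⟨_, h3⟩

/-! ### The value -/

/-- lower bound of the coefficient of `2 / π` in the value -/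
def Pl (L : ℕ) (ka : ℚ) (t c : ℕ → ℚ) (l h : Fin L → ℚ) : ℚ :=
  ka + c L + fs L (fun i => c i.val * (1 + t i.val) - max (c i.val * l i) (c i.val * h i))

/-- upper bound of the constant coefficient of the value -/
def Qh (L : ℕ) (R : ℚ) (t c v : ℕ → ℚ) (l h : Fin L → ℚ) : ℚ :=
  (R * c L - v L) + fs L (fun i => (R * c i.val - v i.val) * (1 + t i.val) -
    min ((R * c i.val - v i.val) * l i) ((R * c i.val - v i.val) * h i))

theorem mul_le_max (a s l h : ℝ) (h1 : l ≤ s) (h2 : s ≤ h) : a * s ≤ max (a * l) (a * h) := by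
  rcases le_total 0 a with ha | ha
  · exact le_max_of_le_right (mul_le_mul_of_nonneg_left h2 ha)
  · exact le_max_of_le_left (mul_le_mul_of_nonpos_left h1 ha)

theorem min_le_mul (a s l h : ℝ) (h1 : l ≤ s) (h2 : s ≤ h) : min (a * l) (a * h) ≤ a * s := by
  rcases le_total 0 a with ha | ha
  · exact min_le_of_left_le (mul_le_mul_of_nonneg_left h1 ha)
  · exact min_le_of_right_le (mul_le_mul_of_nonpos_left h2 ha)

theorem g_eq (t : ℝ) : 1 - (√(1 + t ^ 2))⁻¹ + (t - t ^ 2 * (√(1 + t ^ 2))⁻¹) =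
    1 + t - √(1 + t ^ 2) := by
  have hp : (0 : ℝ) < 1 + t ^ 2 := by positivity
  have hs : √(1 + t ^ 2) * √(1 + t ^ 2) = 1 + t ^ 2 := Real.mul_self_sqrt hp.le
  have hs0 : √(1 + t ^ 2) ≠ 0 := (Real.sqrt_pos.2 hp).ne'
  field_simp
  nlinarith [hs]

theorem sum_lin (V : VD) (N L : ℕ) (hN : 0 < N) (hV : V.Ok N L) (x : ℝ) (i : ℕ) (hi : i ≤ L) :
    ∑ j : Fin N, (x - ((V.ρ j.val : ℚ) : ℝ)) * ((inc (fun j => V.c j i) j.val : ℚ) : ℝ) =
      x * ((V.c (N - 1) i : ℚ) : ℝ) - ((V.ρ N * V.c (N - 1) i - V.v N i : ℚ) : ℝ) := by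
  have h1 := sum_val V.ρ (fun j => V.c j i) (fun j => V.v j i) N (hV.z i hi)
    (fun j hj => hV.s j hj i hi) N le_rfl
  have h2 := sum_inc (fun j => V.c j i) (N - 1)
  rw [Nat.sub_add_cancel hN] at h2
  rw [Fin.sum_univ_eq_sum_range (fun j => (x - ((V.ρ j : ℚ) : ℝ)) *
    ((inc (fun j => V.c j i) j : ℚ) : ℝ)) N]
  have h1' : ∑ j ∈ Finset.range N, (((V.ρ N : ℚ) : ℝ) - ((V.ρ j : ℚ) : ℝ)) *
      ((inc (fun j => V.c j i) j : ℚ) : ℝ) = ((V.v N i : ℚ) : ℝ) := by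
    rw [← h1]; push_cast; rfl
  have h2' : ∑ j ∈ Finset.range N, ((inc (fun j => V.c j i) j : ℚ) : ℝ) =
      ((V.c (N - 1) i : ℚ) : ℝ) := by
    rw [← h2]; push_cast; rfl
  have h3 : ∑ j ∈ Finset.range N, (x - ((V.ρ j : ℚ) : ℝ)) *
      ((inc (fun j => V.c j i) j : ℚ) : ℝ) =
      ∑ j ∈ Finset.range N, (((V.ρ N : ℚ) : ℝ) - ((V.ρ j : ℚ) : ℝ)) *
        ((inc (fun j => V.c j i) j : ℚ) : ℝ) +
      (x - ((V.ρ N : ℚ) : ℝ)) * ∑ j ∈ Finset.range N, ((inc (fun j => V.c j i) j : ℚ) : ℝ) := by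
    rw [Finset.mul_sum, ← Finset.sum_add_distrib]
    exact Finset.sum_congr rfl fun j _ => by ring
  rw [h3, h1', h2']
  push_cast
  ring

theorem val_eq (V : VD) (N L : ℕ) (hN : 0 < N) (hV : V.Ok N L) : ValE (V.toQ N L).toDat =
    4 * (2 / Real.pi * ((V.ka : ℝ) + ((V.c (N - 1) L : ℚ) : ℝ) +
        ∑ i : Fin L, ((V.c (N - 1) i.val : ℚ) : ℝ) *
          (1 + ((V.t i.val : ℚ) : ℝ) - √(1 + ((V.t i.val : ℚ) : ℝ) ^ 2))) -
      (((V.ρ N * V.c (N - 1) L - V.v N L : ℚ) : ℝ) +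
        ∑ i : Fin L, ((V.ρ N * V.c (N - 1) i.val - V.v N i.val : ℚ) : ℝ) *
          (1 + ((V.t i.val : ℚ) : ℝ) - √(1 + ((V.t i.val : ℚ) : ℝ) ^ 2)))) := by
  unfold ValE
  simp only [g_eq]
  have e1 : ∑ j : Fin N, (2 / Real.pi - (V.toQ N L).toDat.ρ j) * ((V.toQ N L).toDat.m0 j +
      ∑ i : Fin L, (V.toQ N L).toDat.m j i * (1 + (V.toQ N L).toDat.t i -
        √(1 + (V.toQ N L).toDat.t i ^ 2))) =
      ∑ j : Fin N, (2 / Real.pi - ((V.ρ j.val : ℚ) : ℝ)) *
        ((inc (fun j => V.c j L) j.val : ℚ) : ℝ) +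
      ∑ i : Fin L, (∑ j : Fin N, (2 / Real.pi - ((V.ρ j.val : ℚ) : ℝ)) *
        ((inc (fun j => V.c j i.val) j.val : ℚ) : ℝ)) *
          (1 + ((V.t i.val : ℚ) : ℝ) - √(1 + ((V.t i.val : ℚ) : ℝ) ^ 2)) := by
    simp only [mul_add, Finset.sum_add_distrib, Finset.mul_sum, Finset.sum_mul]
    rw [Finset.sum_comm (γ := Fin L)]
    congr 1
    refine Finset.sum_congr rfl fun j _ => Finset.sum_congr rfl fun i _ => ?_
    show (2 / Real.pi - ((V.ρ j.val : ℚ) : ℝ)) * (((inc (fun j => V.c j i.val) j.val : ℚ) : ℝ) *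
      (1 + ((V.t i.val : ℚ) : ℝ) - √(1 + ((V.t i.val : ℚ) : ℝ) ^ 2))) = _
    ring
  rw [e1, sum_lin V N L hN hV _ L le_rfl]
  rw [Finset.sum_congr rfl fun i _ => by rw [sum_lin V N L hN hV _ i.val i.isLt.le]]
  simp only [sub_mul, Finset.sum_sub_distrib, mul_add, mul_sub, Finset.sum_add_distrib,
    Finset.mul_sum]
  show 4 * (2 / Real.pi * ((V.ka : ℚ) : ℝ)) + _ = _
  ring_nf

/-- the value from rational numbers -/
theorem val_le (V : VD) (N L : ℕ) (hN : 0 < N) (hV : V.Ok N L) (l h : Fin L → ℚ)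
    (hs : ∀ i : Fin L, 0 ≤ l i ∧ 0 ≤ h i ∧ l i ^ 2 ≤ 1 + V.t i.val ^ 2 ∧
      1 + V.t i.val ^ 2 ≤ h i ^ 2) (p κ : ℚ) (hp : Real.pi < ((p : ℚ) : ℝ)) (hκ : 0 ≤ κ)
    (h0 : 0 ≤ Pl L V.ka V.t (V.c (N - 1)) l h)
    (h1 : κ * p ≤ 4 * (2 / p * Pl L V.ka V.t (V.c (N - 1)) l h -
      Qh L (V.ρ N) V.t (V.c (N - 1)) (V.v N) l h)) :
    (κ : ℝ) * Real.pi ≤ ValE (V.toQ N L).toDat := by
  have hp0 : 0 < Real.pi := Real.pi_pos
  have hs' : ∀ i : Fin L, ((l i : ℚ) : ℝ) ≤ √(1 + ((V.t i.val : ℚ) : ℝ) ^ 2) ∧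
      √(1 + ((V.t i.val : ℚ) : ℝ) ^ 2) ≤ ((h i : ℚ) : ℝ) := by
    intro i
    obtain ⟨h1, h2, h3, h4⟩ := hs i
    have h2' : (0 : ℝ) ≤ ((h i : ℚ) : ℝ) := by exact_mod_cast h2
    have h3' : ((l i : ℚ) : ℝ) ^ 2 ≤ 1 + ((V.t i.val : ℚ) : ℝ) ^ 2 := by exact_mod_cast h3
    have h4' : 1 + ((V.t i.val : ℚ) : ℝ) ^ 2 ≤ ((h i : ℚ) : ℝ) ^ 2 := by exact_mod_cast h4
    exact ⟨Real.le_sqrt_of_sq_le h3', Real.sqrt_le_iff.2 ⟨h2', h4'⟩⟩
  have hP : ((Pl L V.ka V.t (V.c (N - 1)) l h : ℚ) : ℝ) ≤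
      (V.ka : ℝ) + ((V.c (N - 1) L : ℚ) : ℝ) + ∑ i : Fin L, ((V.c (N - 1) i.val : ℚ) : ℝ) *
          (1 + ((V.t i.val : ℚ) : ℝ) - √(1 + ((V.t i.val : ℚ) : ℝ) ^ 2)) := by
    unfold Pl
    rw [Rat.cast_add, fs_cast]
    push_cast
    gcongr with i hi
    have := mul_le_max ((V.c (N - 1) i.val : ℚ) : ℝ) _ _ _ (hs' i).1 (hs' i).2
    linarith
  have hQ : ((V.ρ N * V.c (N - 1) L - V.v N L : ℚ) : ℝ) +
        ∑ i : Fin L, ((V.ρ N * V.c (N - 1) i.val - V.v N i.val : ℚ) : ℝ) *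
          (1 + ((V.t i.val : ℚ) : ℝ) - √(1 + ((V.t i.val : ℚ) : ℝ) ^ 2)) ≤
      ((Qh L (V.ρ N) V.t (V.c (N - 1)) (V.v N) l h : ℚ) : ℝ) := by
    unfold Qh
    rw [Rat.cast_add, fs_cast]
    gcongr with i hi
    have := min_le_mul ((V.ρ N * V.c (N - 1) i.val - V.v N i.val : ℚ) : ℝ) _ _ _
      (hs' i).1 (hs' i).2
    push_cast at this ⊢
    linarith
  rw [val_eq V N L hN hV]
  have h0' : (0 : ℝ) ≤ ((Pl L V.ka V.t (V.c (N - 1)) l h : ℚ) : ℝ) := by exact_mod_cast h0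
  have h1' : (κ : ℝ) * (p : ℝ) ≤ 4 * (2 / (p : ℝ) * ((Pl L V.ka V.t (V.c (N - 1)) l h : ℚ) : ℝ) -
      ((Qh L (V.ρ N) V.t (V.c (N - 1)) (V.v N) l h : ℚ) : ℝ)) := by
    have h2 := (Rat.cast_le (K := ℝ)).2 h1
    push_cast at h2
    exact h2
  have hpp : (0 : ℝ) < (p : ℝ) := hp0.trans hp
  have hZ : 2 / (p : ℝ) ≤ 2 / Real.pi := div_le_div_of_nonneg_left (by norm_num) hp0 hp.le
  have hZ0 : 0 ≤ 2 / Real.pi := by positivity
  have hκ' : (0 : ℝ) ≤ (κ : ℝ) := by exact_mod_cast hκ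
  have h4 : (κ : ℝ) * Real.pi ≤ (κ : ℝ) * (p : ℝ) := mul_le_mul_of_nonneg_left hp.le hκ'
  have h3 := (mul_le_mul_of_nonneg_right hZ h0').trans (mul_le_mul_of_nonneg_left hP hZ0)
  linarith

/-- A consistent set of data with the numerical conditions gives a bound for the area. -/
theorem area {V : VD} {N L : ℕ} (hN : 0 < N) (hka : |V.ka| ≤ 2) (h0 : 0 < V.ρ 0)
    (ht0 : 0 < V.t 0) (hρ : ∀ j, j < N → V.ρ j < V.ρ (j + 1))
    (ht : ∀ j, j + 1 < L → V.t j < V.t (j + 1))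
    (hR : 2 / Real.pi ≤ ((V.ρ N : ℚ) : ℝ)) (hR' : ((V.ρ (N - 1) : ℚ) : ℝ) ≤ 2 / Real.pi)
    (h : ∀ J : Fin N, CK V N L J) (κ : ℚ)
    (hκ : (κ : ℝ) * Real.pi ≤ ValE (V.toQ N L).toDat)
    {M : Type} [MetricSpace M] [CompactSpace M] (S : OFill 2 M)
    (hS : ∀ x y : Sph 2, angle (x : E 2) (y : E 2) ≤ dist (S.bd x) (S.bd y)) :
    ENNReal.ofReal ((κ : ℝ) * Real.pi) ≤ S.vol := by
  refine Fin.bound Pool.Agent.N669.P1_JPOL.main (V.toQ N L) (V.ρ N) (κ : ℝ)
    (cert hka h0 ht0 hρ ht hR h) ⟨?_, hκ⟩ S hS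
  intro j
  refine le_trans ?_ hR'
  show ((V.ρ j.val : ℚ) : ℝ) ≤ ((V.ρ (N - 1) : ℚ) : ℝ)
  have : V.ρ j.val ≤ V.ρ (N - 1) := by
    rcases Nat.lt_or_ge j.val (N - 1) with h1 | h1
    · exact (lt_of_step V.ρ N hρ _ _ h1 (by omega)).le
    · have : j.val = N - 1 := by omega
      rw [this]
  exact_mod_cast this

end Pool.Agent.K9h57.FA
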